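import Pool.Agent.P8H64.GP.Stm3

/-!
# Project GP, package INTB (for helper64)
-/

set_option autoImplicit false

namespace Pool.Agent.P8H88.GP

open MeasureTheory ProbabilityTheory
open Pool.Agent.P8H64.GP

theorem rpow_le_exp {y a : ℝ} (hy : 0 ≤ y) (ha : 0 ≤ a) : y ^ a ≤ Real.exp (a * y) := by
  rcases hy.eq_or_lt with h | h
  · rw [← h, mul_zero, Real.exp_zero]
    exact Real.rpow_le_one le_rfl zero_le_one ha
  · rw [Real.rpow_def_of_pos h, Real.exp_le_exp, mul_comm]
    refine mul_le_mul_of_nonneg_left ?_ ha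
    have := Real.log_le_sub_one_of_pos h
    linarith

theorem int_exp_abs (c : ℝ) (hc : 0 ≤ c) :
    Integrable (fun x : ℝ => Real.exp (c * |x|)) (gaussianReal 0 1) := by
  have h1 : Integrable (fun x : ℝ => Real.exp (c * x) + Real.exp (-c * x)) (gaussianReal 0 1) :=
    (integrable_exp_mul_gaussianReal c).add (integrable_exp_mul_gaussianReal (-c))
  refine h1.mono' (by fun_prop) (ae_of_all _ fun x => ?_)
  rw [Real.norm_of_nonneg (Real.exp_pos _).le]
  rcases abs_cases x with ⟨h, -⟩ | ⟨h, -⟩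
  · rw [h]
    have := Real.exp_pos (-c * x)
    linarith
  · rw [h, mul_neg, ← neg_mul]
    have := Real.exp_pos (c * x)
    linarith

theorem intb : S_INTB := by
  intro n d U ν hν
  obtain ⟨c, hc⟩ : ∃ c : Fin n → ℝ, c = fun k => ∑ i, 2 * ν i * |U i k| := ⟨_, rfl⟩
  have hc0 : ∀ k, 0 ≤ c k := by
    intro k
    rw [hc]
    exact Finset.sum_nonneg fun i _ => mul_nonneg (mul_nonneg (by norm_num) (hν i)) (abs_nonneg _)
  have h1 : Integrable (fun v : Fin n → ℝ => ∏ k, Real.exp (c k * |v k|)) (gr n) :=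
    Integrable.fintype_prod (f := fun k x => Real.exp (c k * |x|)) fun k => int_exp_abs (c k) (hc0 k)
  have hcont : Continuous (fun v : Fin n → ℝ => ∏ i, |∑ k, U i k * v k| ^ (2 * ν i)) := by
    refine continuous_finsetProd _ fun i _ => ?_
    refine Continuous.rpow_const (by fun_prop) fun v => Or.inr ?_
    have := hν i
    positivity
  refine h1.mono' hcont.aestronglyMeasurable (ae_of_all _ fun v => ?_)
  rw [Real.norm_of_nonneg (Finset.prod_nonneg fun i _ => Real.rpow_nonneg (abs_nonneg _) _)]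
  have h2 : ∏ i, |∑ k, U i k * v k| ^ (2 * ν i) ≤
      ∏ i, Real.exp (2 * ν i * ∑ k, |U i k| * |v k|) := by
    refine Finset.prod_le_prod (fun i _ => Real.rpow_nonneg (abs_nonneg _) _) fun i _ => ?_
    have h3 : |∑ k, U i k * v k| ≤ ∑ k, |U i k| * |v k| := by
      refine (Finset.abs_sum_le_sum_abs _ _).trans (le_of_eq ?_)
      exact Finset.sum_congr rfl fun k _ => abs_mul _ _
    have h4 : 0 ≤ 2 * ν i := mul_nonneg (by norm_num) (hν i)
    exact (Real.rpow_le_rpow (abs_nonneg _) h3 h4).trans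
      (rpow_le_exp ((abs_nonneg _).trans h3) h4)
  refine h2.trans (le_of_eq ?_)
  rw [← Real.exp_sum, ← Real.exp_sum]
  congr 1
  rw [hc]
  simp only [Finset.mul_sum, Finset.sum_mul]
  rw [Finset.sum_comm]
  exact Finset.sum_congr rfl fun k _ => Finset.sum_congr rfl fun i _ => by ring

end Pool.Agent.P8H88.GP
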